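import Mathlib

/-!
# The analogue of `m ^ d + k` with `d` odd over `F[T]` (MP_10deed_nt)

Let `F` be a finite field with `|F| = 1 mod 4`. If `d` is an odd multiple of the characteristic and
the derivative of `k` is a nonsquare constant, then `k` is admissible for `d`, and `g ^ d + k` is
reducible for all large `g` which have a square leading coefficient (monic `g`, for instance) or an
even degree. The proof is the parity argument of Stickelberger and Swan.
-/

set_option autoImplicit false

open Polynomial

namespace Pool.Agent.Results.MP_10deed_nt.FunctionFields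

/-- `k` is admissible for `d`: there are no divisor `e > 1` of `d` and polynomial `a` with
`k = a ^ e`. -/
def Admissible {F : Type} [Field F] (d : ℕ) (k : F[X]) : Prop :=
  ∀ e : ℕ, e ∣ d → 1 < e → ¬ ∃ a : F[X], k = a ^ e

section

variable {F : Type} [Field F] [Finite F]

/-- An element of a finite extension fixed by the Frobenius lies in the ground field. -/
theorem mem_of_fixed (L : Type) [Field L] [Algebra F L] (x : L)
    (hx : x ^ Nat.card F = x) : ∃ t : F, algebraMap F L t = x := by
  classical
  have := Fintype.ofFinite F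
  rw [Nat.card_eq_fintype_card] at hx
  have h1 : (X ^ Fintype.card F - X : F[X]) = ∏ a : F, (X - C a) := by
    have hmon : (X ^ Fintype.card F - X : F[X]).Monic := by
      apply monic_X_pow_sub
      simpa using Fintype.one_lt_card (α := F)
    have hcard : (X ^ Fintype.card F - X : F[X]).roots.card =
        (X ^ Fintype.card F - X : F[X]).natDegree := by
      rw [FiniteField.roots_X_pow_card_sub_X,
        FiniteField.X_pow_card_sub_X_natDegree_eq F Fintype.one_lt_card]
      rfl
    have := prod_multiset_X_sub_C_of_monic_of_roots_card_eq hmon hcard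
    rw [FiniteField.roots_X_pow_card_sub_X] at this
    exact this.symm
  have h2 : (∏ a : F, (x - algebraMap F L a)) = 0 := by
    have := congrArg (aeval x) h1
    simp only [map_sub, map_pow, aeval_X, map_prod, aeval_C] at this
    rw [← this, hx, sub_self]
  obtain ⟨a, -, ha⟩ := Finset.prod_eq_zero_iff.mp h2
  exact ⟨a, (sub_eq_zero.mp ha).symm⟩

omit [Finite F] in
theorem frob_vandermonde (L : Type) [Field L] [Algebra F L] [Finite L] (m : ℕ)
    (hL : Nat.card L = Nat.card F ^ (m + 1)) (x : L) (σ : L →+* L)
    (hσ : ∀ y, σ y = y ^ Nat.card F) :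
    σ (Matrix.vandermonde (fun i : Fin (m + 1) => x ^ Nat.card F ^ (i : ℕ))).det =
      (-1) ^ m * (Matrix.vandermonde (fun i : Fin (m + 1) => x ^ Nat.card F ^ (i : ℕ))).det := by
  classical
  have := Fintype.ofFinite L
  set v : Fin (m + 1) → L := fun i => x ^ Nat.card F ^ (i : ℕ) with hv
  have hrot : ∀ i, σ (v i) = v (finRotate (m + 1) i) := by
    intro i
    rw [hσ, finRotate_apply, hv]
    simp only
    rw [← pow_mul, ← pow_succ]
    rcases Nat.lt_or_ge (i : ℕ) m with h | h
    · rw [Fin.val_add_one_of_lt (by rw [Fin.lt_def]; simpa using h)]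
    · have hi : i = Fin.last m := by
        apply Fin.ext
        simp only [Fin.val_last]
        omega
      rw [hi, Fin.last_add_one]
      simp only [Fin.val_last, Fin.val_zero, pow_zero, pow_one]
      rw [← hL, Nat.card_eq_fintype_card, FiniteField.pow_card]
  rw [RingHom.map_det]
  have hM : σ.mapMatrix (Matrix.vandermonde v) =
      (Matrix.vandermonde v).submatrix (finRotate (m + 1)) id := by
    ext i j
    simp only [RingHom.mapMatrix_apply, Matrix.map_apply, Matrix.vandermonde_apply,
      Matrix.submatrix_apply, id, map_pow, hrot]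
  rw [hM, Matrix.det_permute, sign_finRotate]
  simp

/-- **Stickelberger.** If `|F| = 1 mod 4`, then no irreducible monic polynomial has a derivative
`c w ^ 2` with a constant `c` when its degree is even or `c` is not a square. -/
theorem core (hq : Nat.card F % 4 = 1) (H w : F[X]) (hm : H.Monic) (c : F) (hc0 : c ≠ 0)
    (hH : derivative H = C c * w ^ 2) (hn : Even H.natDegree ∨ ¬ IsSquare c) :
    ¬ Irreducible H := by
  classical
  intro hirr
  have := Fintype.ofFinite F
  have hfact := Fact.mk hirr
  let pb : PowerBasis F (AdjoinRoot H) := AdjoinRoot.powerBasis hirr.ne_zero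
  have hfin : Module.Finite F (AdjoinRoot H) := pb.finite
  have hfinL : Finite (AdjoinRoot H) := Module.finite_of_finite F
  have hdim : pb.dim = H.natDegree := rfl
  have hrank : Module.finrank F (AdjoinRoot H) = H.natDegree := by rw [pb.finrank, hdim]
  have hgen : pb.gen = AdjoinRoot.root H := rfl
  have hmin : minpoly F pb.gen = H := by
    rw [hgen, AdjoinRoot.minpoly_root hirr.ne_zero, hm.leadingCoeff]
    simp
  obtain ⟨m, hmn⟩ : ∃ m, H.natDegree = m + 1 := ⟨H.natDegree - 1, by
    have := hirr.natDegree_pos
    omega⟩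
  have hdisc := Algebra.discr_powerBasis_eq_norm F pb
  rw [hmin, hH, map_mul, map_pow, aeval_C, map_mul, map_pow, Algebra.norm_algebraMap, hrank,
    hmn] at hdisc
  generalize (Algebra.norm F) ((aeval pb.gen) w) = ν at hdisc
  -- the Frobenius
  have hcardL : Nat.card (AdjoinRoot H) = Nat.card F ^ (m + 1) := by
    rw [Module.natCard_eq_pow_finrank (K := F), hrank, hmn]
  have hφ : ∀ y, FiniteField.frobeniusAlgHom F (AdjoinRoot H) y = y ^ Nat.card F := by
    intro y
    rw [Nat.card_eq_fintype_card]
    rfl
  have hφpow : ∀ (i : ℕ) (y : AdjoinRoot H),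
      (FiniteField.frobeniusAlgHom F (AdjoinRoot H) ^ i) y = y ^ Nat.card F ^ i := by
    intro i y
    rw [AlgHom.coe_pow, FiniteField.coe_frobeniusAlgHom, pow_iterate, Nat.card_eq_fintype_card]
  have hrankm : Module.finrank F (AdjoinRoot H) = pb.dim := pb.finrank
  let E := AlgebraicClosure (AdjoinRoot H)
  let ι : AdjoinRoot H →ₐ[F] E := IsScalarTower.toAlgHom F (AdjoinRoot H) E
  have hι : Function.Injective ι := (ι : AdjoinRoot H →+* E).injective
  have hbij : Function.Bijective (fun i : Fin pb.dim =>
      ι.comp (FiniteField.frobeniusAlgHom F (AdjoinRoot H) ^ (i : ℕ))) := by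
    rw [Fintype.bijective_iff_injective_and_card]
    refine ⟨?_, by rw [Fintype.card_fin, AlgHom.card F (AdjoinRoot H) E, hrankm]⟩
    intro i j hij
    have h1 : FiniteField.frobeniusAlgHom F (AdjoinRoot H) ^ (i : ℕ) =
        FiniteField.frobeniusAlgHom F (AdjoinRoot H) ^ (j : ℕ) := by
      apply DFunLike.ext
      intro y
      exact hι (DFunLike.congr_fun hij y)
    have h2 := (FiniteField.bijective_frobeniusAlgHom_pow F (AdjoinRoot H)).1
      (a₁ := Fin.cast hrankm.symm i) (a₂ := Fin.cast hrankm.symm j) h1
    exact Fin.cast_injective _ h2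
  let e : Fin pb.dim ≃ (AdjoinRoot H →ₐ[F] E) := Equiv.ofBijective _ hbij
  have he : ∀ i, e i pb.gen = algebraMap (AdjoinRoot H) E (pb.gen ^ Nat.card F ^ (i : ℕ)) := by
    intro i
    rw [← hφpow i pb.gen]
    rfl
  have hprod := Algebra.discr_powerBasis_eq_prod F E pb e
  simp only [he, ← map_sub, ← map_pow, ← map_prod] at hprod
  rw [IsScalarTower.algebraMap_apply F (AdjoinRoot H) E] at hprod
  replace hprod := (algebraMap (AdjoinRoot H) E).injective hprod
  have hfrob := frob_vandermonde (AdjoinRoot H) m hcardL pb.gen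
    (FiniteField.frobeniusAlgHom F (AdjoinRoot H)).toRingHom hφ
  have key : ∀ N : ℕ, N = m + 1 →
      (∏ i : Fin N, ∏ j ∈ Finset.Ioi i,
        (pb.gen ^ Nat.card F ^ (j : ℕ) - pb.gen ^ Nat.card F ^ (i : ℕ)) ^ 2) =
      (Matrix.vandermonde (fun i : Fin (m + 1) => pb.gen ^ Nat.card F ^ (i : ℕ))).det ^ 2 := by
    rintro _ rfl
    rw [Matrix.det_vandermonde, ← Finset.prod_pow]
    refine Finset.prod_congr rfl fun i _ => ?_
    rw [← Finset.prod_pow]
  rw [key pb.dim (hdim.trans hmn)] at hprod
  generalize (Matrix.vandermonde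
    (fun i : Fin (m + 1) => pb.gen ^ Nat.card F ^ (i : ℕ))).det = δ at hprod hfrob
  have hfrob' : δ ^ Nat.card F = (-1) ^ m * δ := by
    rw [← hφ]
    exact hfrob
  -- `-1` is a square in `F`
  have hneg1 : IsSquare (-1 : F) := by
    rw [FiniteField.isSquare_neg_one_iff, ← Nat.card_eq_fintype_card, hq]
    decide
  have hneg : IsSquare ((-1 : F) ^ ((m + 1) * (m + 1 - 1) / 2)) := hneg1.pow _
  have htwo : (2 : F) ≠ 0 := by
    intro h2
    have hchar : ringChar F = 2 := by
      have := ringChar.dvd (R := F) (x := 2) (by exact_mod_cast h2)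
      rcases (Nat.dvd_prime Nat.prime_two).mp this with h | h
      · exact absurd h (CharP.ringChar_ne_one)
      · exact h
    have := FiniteField.even_card_of_char_two hchar
    rw [← Nat.card_eq_fintype_card] at this
    omega
  have hdne : Algebra.discr F pb.basis ≠ 0 := Algebra.discr_not_zero_of_basis F pb.basis
  have hν : ν ≠ 0 := by
    rintro rfl
    apply hdne
    rw [hdisc]
    ring
  rcases Nat.even_or_odd m with hm2 | hm2
  · -- odd degree
    have hnn : ¬ Even H.natDegree := by
      rw [hmn]
      exact Nat.not_even_iff_odd.mpr hm2.add_one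
    have hc : ¬ IsSquare c := hn.resolve_left hnn
    rw [hm2.neg_one_pow, one_mul] at hfrob'
    obtain ⟨t, ht⟩ := mem_of_fixed (AdjoinRoot H) δ hfrob'
    have h1 : Algebra.discr F pb.basis = t ^ 2 := by
      apply (algebraMap F (AdjoinRoot H)).injective
      rw [hprod, map_pow, ht]
    rw [hdisc] at h1
    obtain ⟨s, hs⟩ := hneg
    obtain ⟨r, hr⟩ := hm2
    have hs0 : s ≠ 0 := by
      rintro rfl
      rw [mul_zero] at hs
      exact (pow_ne_zero _ (neg_ne_zero.mpr one_ne_zero)) hs
    apply hc
    refine ⟨t / (s * c ^ r * ν), ?_⟩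
    have hcr : c ^ r ≠ 0 := pow_ne_zero _ hc0
    have h2 : s * s * (c ^ r * c ^ r * c * (ν * ν)) = t ^ 2 := by
      rw [← h1, hs, hr]
      ring
    field_simp
    rw [← h2]
    ring
  · -- even degree
    rw [hm2.neg_one_pow, neg_one_mul] at hfrob'
    obtain ⟨s, hs⟩ := hneg
    obtain ⟨r, hr⟩ := hm2
    have h1 : δ ^ 2 = (algebraMap F (AdjoinRoot H) (s * c ^ (r + 1) * ν)) ^ 2 := by
      rw [← hprod, ← map_pow]
      congr 1
      rw [hdisc, hs, hr]
      ring
    have h3 : δ ^ Nat.card F = δ := by
      rcases sq_eq_sq_iff_eq_or_eq_neg.mp h1 with h | h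
      · rw [h, ← map_pow, Nat.card_eq_fintype_card, FiniteField.pow_card]
      · rw [h, ← map_neg, ← map_pow, Nat.card_eq_fintype_card, FiniteField.pow_card]
    have h4 : δ = 0 := by
      have h5 : (2 : AdjoinRoot H) * δ = 0 := by
        have : δ = -δ := h3.symm.trans hfrob'
        linear_combination this
      have h6 : (2 : AdjoinRoot H) ≠ 0 := by
        intro h7
        apply htwo
        apply (algebraMap F (AdjoinRoot H)).injective
        rw [map_zero, ← h7, map_ofNat]
      exact (mul_eq_zero.mp h5).resolve_left h6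
    apply hdne
    apply (algebraMap F (AdjoinRoot H)).injective
    rw [hprod, h4, map_zero]
    ring

end

/-- A polynomial with a constant nonzero derivative is no proper power. -/
theorem admissible_of_derivative {F : Type} [Field F] (d : ℕ) (k : F[X]) (c : F) (hc : c ≠ 0)
    (hk : derivative k = C c) : Admissible d k := by
  rintro e - he ⟨a, rfl⟩
  rw [derivative_pow] at hk
  have hu : IsUnit (C (e : F) * a ^ (e - 1) * derivative a) := by
    rw [hk]
    exact isUnit_C.mpr (isUnit_iff_ne_zero.mpr hc)
  have ha : IsUnit (a ^ (e - 1)) := by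
    rw [mul_assoc, mul_left_comm] at hu
    exact isUnit_of_mul_isUnit_left hu
  have ha' : IsUnit a := by
    rwa [isUnit_pow_iff (by omega)] at ha
  obtain ⟨b, -, rfl⟩ := Polynomial.isUnit_iff.mp ha'
  simp at hk
  exact hc (C_eq_zero.mp hk.symm)

/-- For odd `d` and `k` admissible for `d` the polynomial `Y ^ d + k` is irreducible. -/
theorem irreducible_of_admissible {F : Type} [Field F] (d : ℕ) (hd : Odd d) (k : F[X])
    (hk : Admissible d k) : Irreducible (X ^ d + C k : F[X][X]) := by
  have hd0 : d ≠ 0 := by
    rintro rfl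
    exact (Nat.not_odd_zero) hd
  have hmon : (X ^ d + C k : F[X][X]).Monic := monic_X_pow_add_C k hd0
  rw [hmon.irreducible_iff_irreducible_map_fraction_map (K := FractionRing F[X])]
  have hmap : (X ^ d + C k : F[X][X]).map (algebraMap F[X] (FractionRing F[X])) =
      X ^ d - C (algebraMap F[X] (FractionRing F[X]) (-k)) := by
    simp
  rw [hmap, X_pow_sub_C_irreducible_iff_of_odd hd]
  intro p hpd hp1 b hb
  have hp : 1 < p := by
    have := Nat.pos_of_dvd_of_pos hpd hd.pos
    omega
  have hint : IsIntegral F[X] b := by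
    apply IsIntegral.of_pow (by omega : 0 < p)
    rw [hb]
    exact isIntegral_algebraMap
  obtain ⟨y, rfl⟩ := IsIntegrallyClosed.isIntegral_iff.mp hint
  rw [← map_pow] at hb
  have hy : y ^ p = -k := IsFractionRing.injective F[X] (FractionRing F[X]) hb
  refine hk p hpd hp ⟨-y, ?_⟩
  rw [(hd.of_dvd_nat hpd).neg_pow, hy, neg_neg]

/-- **Result.** Let `F` be a finite field with `|F| = 1 mod 4`.

(1) Let `d` be an odd multiple of the characteristic of `F` and let `k` be a polynomial whose
derivative is `c w ^ 2` for a nonsquare `c` of `F` and a polynomial `w`. Then `g ^ d + k` is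
irreducible for no polynomial `g` with `d deg g > deg k` whose leading coefficient is a square or
whose degree is even.

(2) For every odd multiple `d` of the characteristic of `F` there is a polynomial `k` admissible for
`d` such that `Y ^ d + k` is irreducible, but `g ^ d + k` is irreducible for no monic polynomial
`g ≠ 1`. -/
theorem result (F : Type) [Field F] [Finite F] (hq : Nat.card F % 4 = 1) :
    (∀ (d : ℕ) (k w : F[X]) (c : F), Odd d → ringChar F ∣ d → ¬ IsSquare c →
      derivative k = C c * w ^ 2 →
      ∀ g : F[X], k.natDegree < d * g.natDegree → (IsSquare g.leadingCoeff ∨ Even g.natDegree) →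
        ¬ Irreducible (g ^ d + k)) ∧
    (∀ d : ℕ, Odd d → ringChar F ∣ d →
      ∃ k : F[X], Admissible d k ∧ Irreducible (X ^ d + C k : F[X][X]) ∧
        ∀ g : F[X], g.Monic → g ≠ 1 → ¬ Irreducible (g ^ d + k)) := by
  have main : ∀ (d : ℕ) (k w : F[X]) (c : F), Odd d → ringChar F ∣ d → ¬ IsSquare c →
      derivative k = C c * w ^ 2 →
      ∀ g : F[X], k.natDegree < d * g.natDegree → (IsSquare g.leadingCoeff ∨ Even g.natDegree) →
        ¬ Irreducible (g ^ d + k) := by
    intro d k w c hd hpd hc hk g hdeg hg hirr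
    have hc0 : c ≠ 0 := by
      rintro rfl
      exact hc ⟨0, by simp⟩
    have hg0 : g ≠ 0 := by
      rintro rfl
      simp at hdeg
    have ha0 : g.leadingCoeff ≠ 0 := leadingCoeff_ne_zero.mpr hg0
    have had : g.leadingCoeff ^ d ≠ 0 := pow_ne_zero _ ha0
    have hdegpow : (g ^ d).natDegree = d * g.natDegree := natDegree_pow g d
    have hlt : k.degree < (g ^ d).degree := by
      apply degree_lt_degree
      rw [hdegpow]
      exact hdeg
    have hlead : (g ^ d + k).leadingCoeff = g.leadingCoeff ^ d := by
      rw [leadingCoeff_add_of_degree_lt' hlt, leadingCoeff_pow]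
    have hnat : (g ^ d + k).natDegree = d * g.natDegree := by
      rw [natDegree_add_eq_left_of_degree_lt hlt, hdegpow]
    have hdF : (d : F) = 0 := by
      obtain ⟨r, rfl⟩ := hpd
      rw [Nat.cast_mul, ringChar.Nat.cast_ringChar, zero_mul]
    have hder : derivative (g ^ d + k) = C c * w ^ 2 := by
      rw [derivative_add, derivative_pow, hdF, C_0, zero_mul, zero_mul, zero_add, hk]
    have hunit : IsUnit (C (g.leadingCoeff ^ d)⁻¹ : F[X]) :=
      isUnit_C.mpr (isUnit_iff_ne_zero.mpr (inv_ne_zero had))
    refine core hq (C (g.leadingCoeff ^ d)⁻¹ * (g ^ d + k)) w ?_ ((g.leadingCoeff ^ d)⁻¹ * c)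
      (mul_ne_zero (inv_ne_zero had) hc0) ?_ ?_ ?_
    · rw [Monic, leadingCoeff_mul, leadingCoeff_C, hlead, inv_mul_cancel₀ had]
    · rw [derivative_C_mul, hder, ← mul_assoc, ← C_mul]
    · rcases hg with hg | hg
      · right
        rintro ⟨s, hs⟩
        obtain ⟨b, hb⟩ := hg
        apply hc
        refine ⟨b ^ d * s, ?_⟩
        have : c = g.leadingCoeff ^ d * (s * s) := by
          rw [← hs]
          field_simp
        rw [this, hb]
        ring
      · left
        rw [natDegree_C_mul (inv_ne_zero had), hnat]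
        exact hg.mul_left d
    · exact (irreducible_isUnit_mul hunit).mpr hirr
  refine ⟨main, ?_⟩
  intro d hd hpd
  have := Fintype.ofFinite F
  have hp : (ringChar F).Prime := CharP.char_is_prime F (ringChar F)
  have hp2 : ringChar F ≠ 2 := by
    intro h2
    have := FiniteField.even_card_of_char_two h2
    rw [← Nat.card_eq_fintype_card] at this
    omega
  obtain ⟨c, hc⟩ := FiniteField.exists_nonsquare hp2
  have hc0 : c ≠ 0 := by
    rintro rfl
    exact hc ⟨0, by simp⟩
  have hk : derivative (C c * X : F[X]) = C c * 1 ^ 2 := by simp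
  have hadm : Admissible d (C c * X : F[X]) :=
    admissible_of_derivative d (C c * X) c hc0 (by simp)
  refine ⟨C c * X, hadm, irreducible_of_admissible d hd _ hadm, ?_⟩
  intro g hg hg1
  have hgd : 1 ≤ g.natDegree := by
    rw [Nat.one_le_iff_ne_zero]
    intro h0
    exact hg1 (hg.natDegree_eq_zero.mp h0)
  have hd1 : 1 < d := lt_of_lt_of_le hp.one_lt (Nat.le_of_dvd hd.pos hpd)
  apply main d (C c * X) 1 c hd hpd hc hk g
  · rw [natDegree_C_mul hc0, natDegree_X]
    calc 1 < d := hd1
      _ = d * 1 := (mul_one _).symm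
      _ ≤ d * g.natDegree := Nat.mul_le_mul_left _ hgd
  · left
    rw [hg.leadingCoeff]
    exact ⟨1, by simp⟩

end Pool.Agent.Results.MP_10deed_nt.FunctionFields
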