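import Mathlib

namespace Pool.Agent.Results.MP_10deed_nt.OneValueEach

/-- `k` is admissible for `d`: there are no divisor `e > 1` of `d` and integer `a` with
`k = a ^ e`. -/
def Admissible (d : ℕ) (k : ℤ) : Prop :=
  ∀ e : ℕ, e ∣ d → 1 < e → ¬ ∃ a : ℤ, k = a ^ e

/-- **Result.** For every bound `N`, the Hardy-Littlewood statement Q1 (infinitely many prime
values `m ^ d + k` for all odd `d > 1` and all admissible `k`) is equivalent to the following:
for all odd `d > 1` with `d ≥ N` and all `k` admissible for `d` there is one `m ≥ 2` such that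
`m ^ d + k` is plus or minus a prime number. Moreover, if `m ^ d + k` is prime for only finitely
many `m`, for one odd `d > 1` and an admissible `k`, then for all multiples `D` of `d` all of whose
prime divisors divide `d`, with finitely many exceptions, `k` is admissible for `D` and
`m ^ D + k` is plus or minus a prime number for no `m ≥ 2`. -/
theorem result :
    (∀ N : ℕ,
      (∀ (d : ℕ) (k : ℤ), 1 < d → Odd d → Admissible d k →
        {m : ℕ | 1 ≤ m ∧ ∃ p : ℕ, p.Prime ∧ (m : ℤ) ^ d + k = p}.Infinite) ↔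
      (∀ (d : ℕ) (k : ℤ), 1 < d → N ≤ d → Odd d → Admissible d k →
        ∃ m : ℕ, 2 ≤ m ∧ ∃ p : ℕ, p.Prime ∧ |(m : ℤ) ^ d + k| = p)) ∧
    (∀ (d : ℕ) (k : ℤ), 1 < d → Odd d → Admissible d k →
      {m : ℕ | 1 ≤ m ∧ ∃ p : ℕ, p.Prime ∧ (m : ℤ) ^ d + k = p}.Finite →
      ∃ D₀ : ℕ, ∀ D : ℕ, D₀ ≤ D → d ∣ D → (∀ q : ℕ, q.Prime → q ∣ D → q ∣ d) →
        Odd D ∧ Admissible D k ∧
          ∀ m : ℕ, 2 ≤ m → ¬ ∃ p : ℕ, p.Prime ∧ |(m : ℤ) ^ D + k| = p) := by
  have key : ∀ (d : ℕ) (k : ℤ), 1 < d → Odd d → Admissible d k →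
      {m : ℕ | 1 ≤ m ∧ ∃ p : ℕ, p.Prime ∧ (m : ℤ) ^ d + k = p}.Finite →
      ∃ D₀ : ℕ, ∀ D : ℕ, D₀ ≤ D → d ∣ D → (∀ q : ℕ, q.Prime → q ∣ D → q ∣ d) →
        Odd D ∧ Admissible D k ∧
          ∀ m : ℕ, 2 ≤ m → ¬ ∃ p : ℕ, p.Prime ∧ |(m : ℤ) ^ D + k| = p := by
    intro d k hd hodd hk hfin
    obtain ⟨B, hB⟩ := hfin.bddAbove
    refine ⟨d * (B + k.natAbs + 1) + 1, fun D hD hdD hq => ?_⟩
    have hD0 : D ≠ 0 := by omega
    have hDodd : Odd D := by
      rw [← Nat.not_even_iff_odd, even_iff_two_dvd]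
      intro h2
      exact (Nat.not_even_iff_odd.mpr hodd) (even_iff_two_dvd.mpr (hq 2 Nat.prime_two h2))
    refine ⟨hDodd, ?_, ?_⟩
    · rintro e he h1 ⟨a, ha⟩
      obtain ⟨p, hp, hpe⟩ := Nat.exists_prime_and_dvd (by omega : e ≠ 1)
      have hpd : p ∣ d := hq p hp (hpe.trans he)
      obtain ⟨c, rfl⟩ := hpe
      exact hk p hpd hp.one_lt ⟨a ^ c, by rw [ha, ← pow_mul, Nat.mul_comm]⟩
    · rintro m hm ⟨p, hp, hmp⟩
      obtain ⟨c, rfl⟩ := hdD
      have hc : B + k.natAbs + 1 ≤ c := by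
        by_contra hcon
        have : d * c ≤ d * (B + k.natAbs + 1) := Nat.mul_le_mul_left _ (by omega)
        omega
      have hlt : B + k.natAbs + 1 < m ^ c :=
        lt_of_le_of_lt hc (lt_of_lt_of_le Nat.lt_two_pow_self (Nat.pow_le_pow_left hm c))
      have hge : m ^ c ≤ (m ^ c) ^ d := Nat.le_self_pow (by omega) _
      have hpos : 0 < ((m : ℤ) ^ (d * c) + k) := by
        have h1 : ((m : ℤ) ^ (d * c)) = (((m ^ c) ^ d : ℕ) : ℤ) := by
          push_cast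
          rw [← pow_mul, Nat.mul_comm]
        rw [h1]
        have h2 : ((B + k.natAbs + 1 : ℕ) : ℤ) < (((m ^ c) ^ d : ℕ) : ℤ) := by
          exact_mod_cast lt_of_lt_of_le hlt hge
        have h3 : -(k.natAbs : ℤ) ≤ k := by omega
        have h4 : ((B + k.natAbs + 1 : ℕ) : ℤ) = (B : ℤ) + (k.natAbs : ℤ) + 1 := by
          rw [Nat.cast_add, Nat.cast_add, Nat.cast_one]
        have h5 : (0 : ℤ) ≤ (B : ℤ) := Int.natCast_nonneg B
        linarith
      rw [abs_of_pos hpos] at hmp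
      have hmem : m ^ c ∈ {m : ℕ | 1 ≤ m ∧ ∃ p : ℕ, p.Prime ∧ (m : ℤ) ^ d + k = p} := by
        refine ⟨by omega, p, hp, ?_⟩
        rw [← hmp]
        push_cast
        rw [← pow_mul, Nat.mul_comm c d]
      have := hB hmem
      omega
  refine ⟨fun N => ⟨?_, ?_⟩, key⟩
  · intro h d k hd _ hodd hk
    obtain ⟨m, ⟨_, p, hp, hmp⟩, hm2⟩ := (h d k hd hodd hk).exists_gt 1
    refine ⟨m, hm2, p, hp, ?_⟩
    rw [hmp]
    simp
  · intro h d k hd hodd hk
    by_contra hnot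
    rw [Set.not_infinite] at hnot
    obtain ⟨D₀, hD₀⟩ := key d k hd hodd hk hnot
    have hbig : N + D₀ + 1 ≤ d ^ (N + D₀ + 1) :=
      (Nat.lt_pow_self hd).le
    obtain ⟨h1, h2, h3⟩ := hD₀ (d ^ (N + D₀ + 1)) (by omega)
      (dvd_pow_self d (by omega)) (fun q hq hqd => hq.dvd_of_dvd_pow hqd)
    obtain ⟨m, hm, hp⟩ := h (d ^ (N + D₀ + 1)) k (Nat.one_lt_pow (by omega) hd) (by omega) h1 h2
    exact h3 m hm hp

end Pool.Agent.Results.MP_10deed_nt.OneValueEach
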